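import Mathlib
import Pool.Agent.V11117.MM3

namespace Pool.Agent.Results.MP_bb681f_co.MaxMain

open Finset Matrix Pool.Agent.V11117

open Classical in
/-- The eigenspace of the real adjacency matrix of `G` for `lam`. -/
noncomputable def eigSpace {V : Type} [Fintype V] (G : SimpleGraph V) (lam : ℝ) :
    Submodule ℝ (V → ℝ) :=
  Module.End.eigenspace (Matrix.mulVecLin (G.adjMatrix ℝ)) lam

/-- `lam` is a main eigenvalue of `G`: some eigenvector is not orthogonal to the all-ones
vector. -/
def IsMain {V : Type} [Fintype V] (G : SimpleGraph V) (lam : ℝ) : Prop :=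
  ∃ x ∈ eigSpace G lam, ∑ v, x v ≠ 0

open Classical in
/-- `X` is a `lam`-star set of `G`: `|X|` is the multiplicity of `lam` and `lam` is not an
eigenvalue of `G - X`. -/
def IsStarSet {n : ℕ} (G : SimpleGraph (Fin n)) (lam : ℝ) (X : Finset (Fin n)) : Prop :=
  X.card = Module.finrank ℝ (eigSpace G lam) ∧
    eigSpace (G.induce {w | w ∉ X}) lam = ⊥

open Classical in
/-- The set of `lam`-main vertices of `X`: those `v ∈ X` for which `lam` is a main eigenvalue
of the subgraph induced by the complement of `X` together with `v`. -/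
noncomputable def mainVerts {n : ℕ} (G : SimpleGraph (Fin n)) (lam : ℝ)
    (X : Finset (Fin n)) : Finset (Fin n) :=
  X.filter (fun v => IsMain (G.induce {w | w ∉ X ∨ w = v}) lam)

/-- The largest number of `lam`-main vertices in a `lam`-star set. -/
noncomputable def alephMax {n : ℕ} (G : SimpleGraph (Fin n)) (lam : ℝ) : ℕ :=
  sSup {m | ∃ X : Finset (Fin n), IsStarSet G lam X ∧ m = (mainVerts G lam X).card}

/-- The set of values `alephMax G lam` over connected graphs of order `n` and their main
eigenvalues. -/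
def values (n : ℕ) : Set ℕ :=
  {m | ∃ (G : SimpleGraph (Fin n)) (lam : ℝ), G.Connected ∧ IsMain G lam ∧
    m = alephMax G lam}

theorem mem_eig {V : Type} [Fintype V] (G : SimpleGraph V) (lam : ℝ) (x : V → ℝ)
    [DecidableRel G.Adj] :
    x ∈ eigSpace G lam ↔ ∀ v, ∑ w, (if G.Adj v w then x w else 0) = lam * x v := by
  classical
  unfold eigSpace
  rw [Module.End.mem_eigenspace_iff, funext_iff]
  simp only [Matrix.mulVecLin_apply, Matrix.mulVec, dotProduct, SimpleGraph.adjMatrix_apply,
    Pi.smul_apply, smul_eq_mul, ite_mul, one_mul, zero_mul]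

theorem mem_eig_induce {n : ℕ} (G : SimpleGraph (Fin n)) (lam : ℝ) (s : Set (Fin n))
    [Fintype s] [DecidableRel G.Adj] [DecidablePred (· ∈ s)] (z : Fin n → ℝ) (hz : ∀ v, v ∉ s → z v = 0) :
    (fun v : s => z v) ∈ eigSpace (G.induce s) lam ↔
      ∀ v ∈ s, ∑ w, (if G.Adj v w then z w else 0) = lam * z v := by
  classical
  rw [mem_eig]
  have key : ∀ v : s, ∑ w : s, (if (G.induce s).Adj v w then z w else 0) =
      ∑ w, (if G.Adj v w then z w else 0) := by
    intro v
    simp only [SimpleGraph.comap_adj, Function.Embedding.subtype_apply]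
    have h1 := Finset.sum_subtype (F := (inferInstance : Fintype s)) (Finset.univ.filter (· ∈ s)) (p := (· ∈ s)) (by simp)
      (fun w => (if G.Adj v w then z w else 0))
    refine Eq.trans ?_ (h1.symm.trans ?_)
    · refine Finset.sum_congr rfl fun w _ => ?_
      rfl
    · rw [Finset.sum_filter]
      refine Finset.sum_congr rfl fun w _ => ?_
      by_cases hw : w ∈ s
      · simp [hw]
      · simp [hw, hz w hw]
  constructor
  · intro h v hv
    rw [← key ⟨v, hv⟩]
    exact h ⟨v, hv⟩
  · intro h v
    rw [key v]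
    exact h v v.2

/-- An eigenvector vanishing on a set `X` whose complement does not have the eigenvalue
vanishes. -/
theorem eq_zero_of {n : ℕ} {G : SimpleGraph (Fin n)} {lam : ℝ} {X : Finset (Fin n)}
    [Fintype {w | w ∉ X}] (hX : eigSpace (G.induce {w | w ∉ X}) lam = ⊥)
    [DecidableRel G.Adj]
    {x : Fin n → ℝ} (h0 : ∀ v ∈ X, x v = 0)
    (h : ∀ v, v ∉ X → ∑ w, (if G.Adj v w then x w else 0) = lam * x v) : x = 0 := by
  classical
  have h1 := (mem_eig_induce G lam {w | w ∉ X} x (by
    intro v hv
    apply h0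
    simpa using hv)).2 (by
      intro v hv
      exact h v hv)
  rw [hX, Submodule.mem_bot] at h1
  funext v
  by_cases hv : v ∈ X
  · simpa using h0 v hv
  · exact congrFun h1 ⟨v, hv⟩

theorem star_basis {n : ℕ} {G : SimpleGraph (Fin n)} {lam : ℝ} {X : Finset (Fin n)}
    (hX : IsStarSet G lam X) (v : Fin n) (hv : v ∈ X) :
    ∃ y : Fin n → ℝ, y ∈ eigSpace G lam ∧ y v = 1 ∧ ∀ u ∈ X, u ≠ v → y u = 0 := by
  classical
  obtain ⟨h1, h2⟩ := hX
  let r : eigSpace G lam →ₗ[ℝ] (X → ℝ) :=
    (LinearMap.funLeft ℝ ℝ (fun u : X => (u : Fin n))).comp (eigSpace G lam).subtype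
  have hr : Function.Injective r := by
    rw [← LinearMap.ker_eq_bot, LinearMap.ker_eq_bot']
    intro x hx
    have h3 : (x : Fin n → ℝ) = 0 := by
      apply eq_zero_of h2
      · intro u hu
        exact congrFun hx ⟨u, hu⟩
      · intro u _
        exact (mem_eig G lam x).1 x.2 u
    exact Subtype.ext h3
  have hs : Function.Surjective r := by
    rw [← LinearMap.injective_iff_surjective_of_finrank_eq_finrank]
    · exact hr
    · rw [← h1]
      simp
  obtain ⟨y, hy⟩ := hs (fun u => if (u : Fin n) = v then 1 else 0)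
  refine ⟨y, y.2, ?_, ?_⟩
  · have := congrFun hy ⟨v, hv⟩
    simpa [r, LinearMap.funLeft] using this
  · intro u hu huv
    have := congrFun hy ⟨u, hu⟩
    simpa [r, LinearMap.funLeft, huv] using this

theorem sum_sub {n : ℕ} (s : Set (Fin n)) [Fintype s] (z : Fin n → ℝ)
    (hz : ∀ v, v ∉ s → z v = 0) : ∑ w : s, z w = ∑ w, z w := by
  classical
  have h1 := Finset.sum_subtype (F := (inferInstance : Fintype s))
    (Finset.univ.filter (· ∈ s)) (p := (· ∈ s)) (by simp) z
  refine Eq.trans ?_ (h1.symm.trans ?_)
  · rfl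
  · rw [Finset.sum_filter]
    refine Finset.sum_congr rfl fun w _ => ?_
    by_cases hw : w ∈ s
    · simp [hw]
    · simp [hw, hz w hw]

theorem mem_mainVerts {n : ℕ} {G : SimpleGraph (Fin n)} {lam : ℝ} {X : Finset (Fin n)}
    [DecidableRel G.Adj]
    (h2 : ∀ x : Fin n → ℝ, (∀ v ∈ X, x v = 0) →
      (∀ v, v ∉ X → ∑ w, (if G.Adj v w then x w else 0) = lam * x v) → x = 0)
    {v : Fin n} (hv : v ∈ X) {y : Fin n → ℝ}
    (hy : y ∈ eigSpace G lam) (hy1 : y v = 1) (hy2 : ∀ u ∈ X, u ≠ v → y u = 0) :
    v ∈ mainVerts G lam X ↔ ∑ w, y w ≠ 0 := by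
  classical
  have hy' := (mem_eig G lam y).1 hy
  unfold mainVerts
  rw [Finset.mem_filter]
  constructor
  · rintro ⟨-, x, hx, hxs⟩
    set z : Fin n → ℝ := fun w => if h : w ∈ {w | w ∉ X ∨ w = v} then x ⟨w, h⟩ else 0 with hzdef
    have hz0 : ∀ w, w ∉ {w | w ∉ X ∨ w = v} → z w = 0 := by
      intro w hw
      simp only [hzdef, hw, dif_neg, not_false_iff]
    have hzx : (fun w : ({w | w ∉ X ∨ w = v} : Set (Fin n)) => z w) = x := by
      funext w
      have := w.2
      simp only [hzdef, this, dif_pos]
    have hze := (mem_eig_induce G lam {w | w ∉ X ∨ w = v} z hz0).1 (by rw [hzx]; exact hx)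
    have hd : (fun w => z w - z v * y w) = 0 := by
      apply h2
      · intro u hu
        by_cases huv : u = v
        · rw [huv, hy1]; ring
        · rw [hy2 u hu huv, hz0 u (by simp [hu, huv])]; ring
      · intro w hw
        have e1 := hze w (Or.inl hw)
        have e2 := hy' w
        calc ∑ t, (if G.Adj w t then z t - z v * y t else 0)
            = ∑ t, ((if G.Adj w t then z t else 0) - z v * (if G.Adj w t then y t else 0)) := by
              refine Finset.sum_congr rfl fun t _ => ?_
              split_ifs <;> ring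
          _ = lam * (z w - z v * y w) := by
              rw [Finset.sum_sub_distrib, ← Finset.mul_sum, e1, e2]; ring
    have hs : ∑ w, z w = z v * ∑ w, y w := by
      rw [Finset.mul_sum]
      refine Finset.sum_congr rfl fun w _ => ?_
      have := congrFun hd w
      simp only [Pi.zero_apply] at this
      linarith
    intro h0
    apply hxs
    rw [← hzx]
    show ∑ w : ({w | w ∉ X ∨ w = v} : Set (Fin n)), z w = 0
    rw [sum_sub _ z hz0, hs, h0, mul_zero]
  · intro h0
    refine ⟨hv, fun w => y w, ?_, ?_⟩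
    · refine (mem_eig_induce G lam {w | w ∉ X ∨ w = v} y ?_).2 (fun w _ => hy' w)
      intro w hw
      simp only [Set.mem_setOf_eq, not_or, not_not] at hw
      exact hy2 w hw.1 hw.2
    · rw [sum_sub _ y]
      · exact h0
      · intro w hw
        simp only [Set.mem_setOf_eq, not_or, not_not] at hw
        exact hy2 w hw.1 hw.2

/-- A set closed under adjacency in a connected graph is everything. -/
theorem closed_all {n : ℕ} {G : SimpleGraph (Fin n)} (hG : G.Connected) (S : Finset (Fin n))
    (hS : ∀ x ∈ S, ∀ y, G.Adj x y → y ∈ S) {v : Fin n} (hv : v ∈ S) (u : Fin n) : u ∈ S := by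
  obtain ⟨p⟩ := hG.preconnected v u
  induction p with
  | nil => exact hv
  | cons h p ih => exact ih (hS _ hv _ h)

theorem Aval {n : ℕ} (G : SimpleGraph (Fin n)) [DecidableRel G.Adj] (u w : Fin n) :
    (if G.Adj u w then (1 : ℝ) else 0) = 0 ∨ (if G.Adj u w then (1 : ℝ) else 0) = 1 := by
  split_ifs <;> simp

theorem Aadj {n : ℕ} {G : SimpleGraph (Fin n)} [DecidableRel G.Adj] {u w : Fin n}
    (h : (if G.Adj u w then (1 : ℝ) else 0) = 0) : ¬ G.Adj u w := by
  intro h1
  rw [if_pos h1] at h
  exact one_ne_zero h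

theorem Asymm {n : ℕ} (G : SimpleGraph (Fin n)) [DecidableRel G.Adj] (u w : Fin n) :
    (if G.Adj u w then (1 : ℝ) else 0) = (if G.Adj w u then (1 : ℝ) else 0) := by
  simp only [G.adj_comm u w]

theorem core3 {n : ℕ} {G : SimpleGraph (Fin n)} (hG : G.Connected) {lam : ℝ}
    {X : Finset (Fin n)} (hX : IsStarSet G lam X) (h2 : 2 ≤ X.card) (h3 : (Xᶜ).card = 3)
    {v : Fin n} (hv : v ∈ X) {y : Fin n → ℝ}
    (hy : y ∈ eigSpace G lam) (hy1 : y v = 1) (hy2 : ∀ u ∈ X, u ≠ v → y u = 0) :
    ∑ w, y w = 0 := by
  classical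
  obtain ⟨a, b, c, hab, hac, hbc, hc⟩ := Finset.card_eq_three.1 h3
  have ha' : a ∉ X := by
    have : a ∈ Xᶜ := by rw [hc]; simp
    simpa using this
  have hb' : b ∉ X := by
    have : b ∈ Xᶜ := by rw [hc]; simp
    simpa using this
  have hc' : c ∉ X := by
    have : c ∈ Xᶜ := by rw [hc]; simp
    simpa using this
  have hcov : ∀ w, w ∉ X → w = a ∨ w = b ∨ w = c := by
    intro w hw
    have : w ∈ Xᶜ := by simpa using hw
    rw [hc] at this
    simpa using this
  have zer : ∀ x : Fin n → ℝ, (∀ v ∈ X, x v = 0) →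
      (∀ v, v ∉ X → ∑ w, (if G.Adj v w then x w else 0) = lam * x v) → x = 0 :=
    fun x h0 h => eq_zero_of hX.2 h0 h
  set A : Fin n → Fin n → ℝ := fun u w => if G.Adj u w then (1 : ℝ) else 0 with hA
  have hAs : ∀ u w, A u w = A w u := fun u w => Asymm G u w
  have hAv : ∀ u w, A u w = 0 ∨ A u w = 1 := fun u w => Aval G u w
  have hAz : ∀ u, A u u = 0 := fun u => by simp [hA]
  -- sums
  have supp : ∀ (v : Fin n), v ∈ X → ∀ (f : Fin n → ℝ), (∀ u ∈ X, u ≠ v → f u = 0) →
      ∑ w, f w = f a + f b + f c + f v := by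
    intro v hv f hf
    have hva : v ≠ a := fun h => ha' (h ▸ hv)
    have hvb : v ≠ b := fun h => hb' (h ▸ hv)
    have hvc : v ≠ c := fun h => hc' (h ▸ hv)
    have h4 : ∑ w ∈ ({a, b, c, v} : Finset (Fin n)), f w = ∑ w, f w := by
      apply Finset.sum_subset (Finset.subset_univ _)
      intro w _ hw
      simp only [Finset.mem_insert, Finset.mem_singleton, not_or] at hw
      apply hf
      · by_contra hwX
        rcases hcov w hwX with h | h | h
        · exact hw.1 h
        · exact hw.2.1 h
        · exact hw.2.2.1 h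
      · exact hw.2.2.2
    rw [← h4, Finset.sum_insert, Finset.sum_insert, Finset.sum_insert, Finset.sum_singleton]
    · ring
    · simp only [Finset.mem_singleton]; exact fun h => hvc h.symm
    · simp only [Finset.mem_insert, Finset.mem_singleton, not_or]; exact ⟨hbc, fun h => hvb h.symm⟩
    · simp only [Finset.mem_insert, Finset.mem_singleton, not_or]
      exact ⟨hab, hac, fun h => hva h.symm⟩
  have eqn : ∀ (v : Fin n), v ∈ X → ∀ (y : Fin n → ℝ), y ∈ eigSpace G lam → y v = 1 →
      (∀ u ∈ X, u ≠ v → y u = 0) → ∀ w, A w a * y a + A w b * y b + A w c * y c + A w v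
        = lam * y w := by
    intro v hv y hy hy1 hy2 w
    have e := (mem_eig G lam y).1 hy w
    rw [← e, supp v hv]
    · simp only [hA, hy1]
      simp only [ite_mul, one_mul, zero_mul]
    · intro u hu huv
      simp [hy2 u hu huv]
  -- nonsingularity
  have hD : -lam^3 + (A a b + A a c + A b c) * lam + 2 * A a b * A a c * A b c ≠ 0 := by
    intro h0
    let M : Matrix (Fin 3) (Fin 3) ℝ := !![-lam, A a b, A a c; A a b, -lam, A b c;
      A a c, A b c, -lam]
    have hdet : M.det = 0 := by
      rw [Matrix.det_fin_three]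
      simp only [M, Matrix.of_apply, Matrix.cons_val', Matrix.cons_val_zero,
        Matrix.cons_val_one, Matrix.cons_val_fin_one, Matrix.cons_val]
      rcases hAv a b with h | h <;> rcases hAv a c with h' | h' <;>
        rcases hAv b c with h'' | h'' <;> rw [h, h', h''] at h0 <;> rw [h, h', h''] <;>
        linarith
    obtain ⟨x, hx0, hx⟩ := Matrix.exists_mulVec_eq_zero_iff.2 hdet
    have x0 := congrFun hx 0
    have x1 := congrFun hx 1
    have x2 := congrFun hx 2
    simp only [M, Matrix.mulVec, dotProduct, Fin.sum_univ_three, Matrix.of_apply,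
      Matrix.cons_val', Matrix.cons_val_zero, Matrix.cons_val_one, Matrix.cons_val_fin_one,
      Matrix.cons_val, Pi.zero_apply] at x0 x1 x2
    set z : Fin n → ℝ := fun w => if w = a then x 0 else if w = b then x 1 else
      if w = c then x 2 else 0 with hz
    have hza : z a = x 0 := by simp [hz]
    have hzb : z b = x 1 := by simp [hz, hab.symm]
    have hzc : z c = x 2 := by simp [hz, hac.symm, hbc.symm]
    have hzX : ∀ u ∈ X, z u = 0 := by
      intro u hu
      have e1 : u ≠ a := fun h => ha' (h ▸ hu)
      have e2 : u ≠ b := fun h => hb' (h ▸ hu)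
      have e3 : u ≠ c := fun h => hc' (h ▸ hu)
      simp [hz, e1, e2, e3]
    have hz0 : z = 0 := by
      apply zer z hzX
      intro w hw
      rw [supp v hv _ (fun u hu _ => by simp [hzX u hu])]
      have hw' : A w a * z a + A w b * z b + A w c * z c = lam * z w := by
        rw [hza, hzb, hzc]
        rcases hcov w hw with rfl | rfl | rfl
        · rw [hza, hAz]
          linarith
        · rw [hzb, hAz, hAs w a]
          linarith
        · rw [hzc, hAz, hAs w a, hAs w b]
          linarith
      rw [← hw']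
      simp only [hA, hzX v hv, ite_self, add_zero, ite_mul, one_mul, zero_mul]
    apply hx0
    funext i
    fin_cases i
    · show x 0 = 0
      rw [← hza, hz0]; rfl
    · show x 1 = 0
      rw [← hzb, hz0]; rfl
    · show x 2 = 0
      rw [← hzc, hz0]; rfl
  -- pair analysis
  by_contra hne
  have hsum : ∑ w, y w = y a + y b + y c + y v := supp v hv y hy2
  have hne' : 1 + y a + y b + y c ≠ 0 := by
    intro h
    apply hne
    rw [hsum, hy1]
    linarith
  have hyv := eqn v hv y hy hy1 hy2
  have pair : ∀ u ∈ X, u ≠ v → (A a v = 0 ∧ A b v = 0 ∧ A c v = 0 ∧ A u v = 0) ∨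
      (A a b = 0 ∧ A a c = 0 ∧ A b c = 0 ∧ A u v = 0 ∧
        ((A a v = 1 ∧ A b v = 0 ∧ A c v = 0 ∧ A a u = 0) ∨
        (A a v = 0 ∧ A b v = 1 ∧ A c v = 0 ∧ A b u = 0) ∨
        (A a v = 0 ∧ A b v = 0 ∧ A c v = 1 ∧ A c u = 0))) := by
    intro u hu huv
    obtain ⟨y', hy', hy1', hy2'⟩ := star_basis hX u hu
    have hyu := eqn u hu y' hy' hy1' hy2'
    have := MM3.pair3 lam (y a) (y b) (y c) (y' a) (y' b) (y' c) (A a b) (A a c) (A b c)
      (A a v) (A b v) (A c v) (A a u) (A b u) (A c u) (A u v) (hAv _ _) (hAv _ _) (hAv _ _)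
      (hAv _ _) (hAv _ _) (hAv _ _) (hAv _ _) (hAv _ _) (hAv _ _) (hAv _ _) hD
      (by have := hyv a; rw [hAz] at this; linarith)
      (by have := hyv b; rw [hAz, hAs b a] at this; linarith)
      (by have := hyv c; rw [hAz, hAs c a, hAs c b] at this; linarith)
      (by have := hyv v; rw [hAz, hAs v a, hAs v b, hAs v c, hy1] at this; linarith)
      (by have := hyv u; rw [hAs u a, hAs u b, hAs u c, hy2 u hu huv] at this; linarith)
      (by have := hyu a; rw [hAz] at this; linarith)
      (by have := hyu b; rw [hAz, hAs b a] at this; linarith)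
      (by have := hyu c; rw [hAz, hAs c a, hAs c b] at this; linarith)
      (by have := hyu u; rw [hAz, hAs u a, hAs u b, hAs u c, hy1'] at this; linarith)
      (by
        have := hyu v
        rw [hAs v a, hAs v b, hAs v c, hAs v u, hy2' v hv (Ne.symm huv)] at this
        linarith)
    rcases this with h | h | h
    · exact absurd h hne'
    · exact Or.inl h
    · exact Or.inr h
  obtain ⟨u0, hu0, hu0v⟩ := Finset.exists_mem_ne (by omega : 1 < X.card) v
  have nadj : ∀ u w, A u w = 0 → ¬ G.Adj u w := fun u w h => Aadj h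
  have hvX : ∀ u ∈ X, ¬ G.Adj v u := by
    intro u hu
    by_cases huv : u = v
    · rw [huv]; exact G.loopless.irrefl v
    · intro hadj
      rcases pair u hu huv with h | h
      · exact nadj _ _ h.2.2.2 hadj.symm
      · exact nadj _ _ h.2.2.2.1 hadj.symm
  -- the two closed sets
  have fin2 : ∀ t : Fin n, t ∉ X → A a b = 0 → A a c = 0 → A b c = 0 →
      A t v = 1 → (∀ w, w ∉ X → w ≠ t → A w v = 0) → (∀ u ∈ X, u ≠ v → A t u = 0) → False := by
    intro t ht e1 e2 e3 _ e5 e6
    have hH : ∀ w, w ∉ X → ¬ G.Adj t w := by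
      intro w hw hadj
      rcases hcov t ht with rfl | rfl | rfl <;> rcases hcov w hw with rfl | rfl | rfl
      · exact G.loopless.irrefl _ hadj
      · exact nadj _ _ e1 hadj
      · exact nadj _ _ e2 hadj
      · exact nadj _ _ e1 hadj.symm
      · exact G.loopless.irrefl _ hadj
      · exact nadj _ _ e3 hadj
      · exact nadj _ _ e2 hadj.symm
      · exact nadj _ _ e3 hadj.symm
      · exact G.loopless.irrefl _ hadj
    have := closed_all hG {v, t} (by
      intro x hx w hadj
      simp only [Finset.mem_insert, Finset.mem_singleton] at hx ⊢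
      rcases hx with rfl | rfl
      · by_contra hw
        rw [not_or] at hw
        by_cases hwX : w ∈ X
        · exact hvX w hwX hadj
        · exact nadj _ _ (e5 w hwX hw.2) hadj.symm
      · by_contra hw
        rw [not_or] at hw
        by_cases hwX : w ∈ X
        · exact nadj _ _ (e6 w hwX hw.1) hadj
        · exact hH w hwX hadj) (Finset.mem_insert_self v _) u0
    simp only [Finset.mem_insert, Finset.mem_singleton] at this
    rcases this with h | h
    · exact hu0v h
    · exact ht (h ▸ hu0)
  rcases pair u0 hu0 hu0v with h | ⟨e1, e2, e3, -, h⟩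
  · have := closed_all hG {v} (by
      intro x hx w hadj
      simp only [Finset.mem_singleton] at hx ⊢
      subst hx
      by_contra hw
      by_cases hwX : w ∈ X
      · exact hvX w hwX hadj
      · rcases hcov w hwX with rfl | rfl | rfl
        · exact nadj _ _ h.1 hadj.symm
        · exact nadj _ _ h.2.1 hadj.symm
        · exact nadj _ _ h.2.2.1 hadj.symm) (Finset.mem_singleton_self v) u0
    exact hu0v (Finset.mem_singleton.1 this)
  · rcases h with h | h | h
    · refine fin2 a ha' e1 e2 e3 h.1 ?_ ?_
      · intro w hw hwa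
        rcases hcov w hw with rfl | rfl | rfl
        · exact absurd rfl hwa
        · exact h.2.1
        · exact h.2.2.1
      · intro u hu huv
        rcases pair u hu huv with h' | ⟨-, -, -, -, h' | h' | h'⟩
        · rw [h.1] at h'; exact absurd h'.1 one_ne_zero
        · exact h'.2.2.2
        · rw [h.1] at h'; exact absurd h'.1 one_ne_zero
        · rw [h.1] at h'; exact absurd h'.1 one_ne_zero
    · refine fin2 b hb' e1 e2 e3 h.2.1 ?_ ?_
      · intro w hw hwa
        rcases hcov w hw with rfl | rfl | rfl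
        · exact h.1
        · exact absurd rfl hwa
        · exact h.2.2.1
      · intro u hu huv
        rcases pair u hu huv with h' | ⟨-, -, -, -, h' | h' | h'⟩
        · rw [h.2.1] at h'; exact absurd h'.2.1 one_ne_zero
        · rw [h.2.1] at h'; exact absurd h'.2.1 one_ne_zero
        · exact h'.2.2.2
        · rw [h.2.1] at h'; exact absurd h'.2.1 one_ne_zero
    · refine fin2 c hc' e1 e2 e3 h.2.2.1 ?_ ?_
      · intro w hw hwa
        rcases hcov w hw with rfl | rfl | rfl
        · exact h.1
        · exact h.2.1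
        · exact absurd rfl hwa
      · intro u hu huv
        rcases pair u hu huv with h' | ⟨-, -, -, -, h' | h' | h'⟩
        · rw [h.2.2.1] at h'; exact absurd h'.2.2.1 one_ne_zero
        · rw [h.2.2.1] at h'; exact absurd h'.2.2.1 one_ne_zero
        · rw [h.2.2.1] at h'; exact absurd h'.2.2.1 one_ne_zero
        · exact h'.2.2.2

theorem core2 {n : ℕ} {G : SimpleGraph (Fin n)} (hG : G.Connected) {lam : ℝ}
    {X : Finset (Fin n)} (hX : IsStarSet G lam X) (h2 : 2 ≤ X.card) (h3 : (Xᶜ).card = 2)
    {v : Fin n} (hv : v ∈ X) {y : Fin n → ℝ}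
    (hy : y ∈ eigSpace G lam) (hy1 : y v = 1) (hy2 : ∀ u ∈ X, u ≠ v → y u = 0) :
    ∑ w, y w = 0 := by
  classical
  obtain ⟨a, b, hab, hc⟩ := Finset.card_eq_two.1 h3
  have ha' : a ∉ X := by
    have : a ∈ Xᶜ := by rw [hc]; simp
    simpa using this
  have hb' : b ∉ X := by
    have : b ∈ Xᶜ := by rw [hc]; simp
    simpa using this
  have hcov : ∀ w, w ∉ X → w = a ∨ w = b := by
    intro w hw
    have : w ∈ Xᶜ := by simpa using hw
    rw [hc] at this
    simpa using this
  have zer : ∀ x : Fin n → ℝ, (∀ v ∈ X, x v = 0) →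
      (∀ v, v ∉ X → ∑ w, (if G.Adj v w then x w else 0) = lam * x v) → x = 0 :=
    fun x h0 h => eq_zero_of hX.2 h0 h
  set A : Fin n → Fin n → ℝ := fun u w => if G.Adj u w then (1 : ℝ) else 0 with hA
  have hAs : ∀ u w, A u w = A w u := fun u w => Asymm G u w
  have hAv : ∀ u w, A u w = 0 ∨ A u w = 1 := fun u w => Aval G u w
  have hAz : ∀ u, A u u = 0 := fun u => by simp [hA]
  -- sums
  have supp : ∀ (v : Fin n), v ∈ X → ∀ (f : Fin n → ℝ), (∀ u ∈ X, u ≠ v → f u = 0) →
      ∑ w, f w = f a + f b + f v := by
    intro v hv f hf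
    have hva : v ≠ a := fun h => ha' (h ▸ hv)
    have hvb : v ≠ b := fun h => hb' (h ▸ hv)
    have h4 : ∑ w ∈ ({a, b, v} : Finset (Fin n)), f w = ∑ w, f w := by
      apply Finset.sum_subset (Finset.subset_univ _)
      intro w _ hw
      simp only [Finset.mem_insert, Finset.mem_singleton, not_or] at hw
      apply hf
      · by_contra hwX
        rcases hcov w hwX with h | h
        · exact hw.1 h
        · exact hw.2.1 h
      · exact hw.2.2
    rw [← h4, Finset.sum_insert, Finset.sum_insert, Finset.sum_singleton]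
    · ring
    · simp only [Finset.mem_singleton]; exact fun h => hvb h.symm
    · simp only [Finset.mem_insert, Finset.mem_singleton, not_or]
      exact ⟨hab, fun h => hva h.symm⟩
  have eqn : ∀ (v : Fin n), v ∈ X → ∀ (y : Fin n → ℝ), y ∈ eigSpace G lam → y v = 1 →
      (∀ u ∈ X, u ≠ v → y u = 0) → ∀ w, A w a * y a + A w b * y b + A w v
        = lam * y w := by
    intro v hv y hy hy1 hy2 w
    have e := (mem_eig G lam y).1 hy w
    rw [← e, supp v hv]
    · simp only [hA, hy1]
      simp only [ite_mul, one_mul, zero_mul]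
    · intro u hu huv
      simp [hy2 u hu huv]
  -- nonsingularity
  have hD : lam^2 - A a b ≠ 0 := by
    intro h0
    set z : Fin n → ℝ := fun w => if w = a then lam else if w = b then 1 else 0 with hz
    have hza : z a = lam := by simp [hz]
    have hzb : z b = 1 := by simp [hz, hab.symm]
    have hzX : ∀ u ∈ X, z u = 0 := by
      intro u hu
      have e1 : u ≠ a := fun h => ha' (h ▸ hu)
      have e2 : u ≠ b := fun h => hb' (h ▸ hu)
      simp [hz, e1, e2]
    have hz0 : z = 0 := by
      apply zer z hzX
      intro w hw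
      rw [supp v hv _ (fun u hu _ => by simp [hzX u hu])]
      have hw' : A w a * z a + A w b * z b = lam * z w := by
        rw [hza, hzb]
        rcases hcov w hw with rfl | rfl
        · rw [hza, hAz]
          linarith
        · rw [hzb, hAz, hAs w a]
          rcases hAv a w with h | h
          · rw [h] at h0 ⊢
            have : lam = 0 := by
              have : lam ^ 2 = 0 := by linarith
              exact pow_eq_zero_iff (by norm_num) |>.1 this
            rw [this]; ring
          · rw [h]; ring
      rw [← hw']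
      simp only [hA, hzX v hv, ite_self, add_zero, ite_mul, one_mul, zero_mul]
    rw [hz0] at hzb
    exact zero_ne_one hzb
  -- pair analysis
  by_contra hne
  have hsum : ∑ w, y w = y a + y b + y v := supp v hv y hy2
  have hne' : 1 + y a + y b ≠ 0 := by
    intro h
    apply hne
    rw [hsum, hy1]
    linarith
  have hyv := eqn v hv y hy hy1 hy2
  have pair : ∀ u ∈ X, u ≠ v → (A a v = 0 ∧ A b v = 0 ∧ A u v = 0) ∨
      (A a b = 0 ∧ A u v = 0 ∧
        ((A a v = 1 ∧ A b v = 0 ∧ A a u = 0) ∨
        (A a v = 0 ∧ A b v = 1 ∧ A b u = 0))) := by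
    intro u hu huv
    obtain ⟨y', hy', hy1', hy2'⟩ := star_basis hX u hu
    have hyu := eqn u hu y' hy' hy1' hy2'
    have := MM3.pair2 lam (y a) (y b) (y' a) (y' b) (A a b)
      (A a v) (A b v) (A a u) (A b u) (A u v) (hAv _ _) (hAv _ _) (hAv _ _)
      (hAv _ _) (hAv _ _) (hAv _ _) hD
      (by have := hyv a; rw [hAz] at this; linarith)
      (by have := hyv b; rw [hAz, hAs b a] at this; linarith)
      (by have := hyv v; rw [hAz, hAs v a, hAs v b, hy1] at this; linarith)
      (by have := hyv u; rw [hAs u a, hAs u b, hy2 u hu huv] at this; linarith)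
      (by have := hyu a; rw [hAz] at this; linarith)
      (by have := hyu b; rw [hAz, hAs b a] at this; linarith)
      (by have := hyu u; rw [hAz, hAs u a, hAs u b, hy1'] at this; linarith)
      (by
        have := hyu v
        rw [hAs v a, hAs v b, hAs v u, hy2' v hv (Ne.symm huv)] at this
        linarith)
    rcases this with h | h | h
    · exact absurd h hne'
    · exact Or.inl h
    · exact Or.inr h
  obtain ⟨u0, hu0, hu0v⟩ := Finset.exists_mem_ne (by omega : 1 < X.card) v
  have nadj : ∀ u w, A u w = 0 → ¬ G.Adj u w := fun u w h => Aadj h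
  have hvX : ∀ u ∈ X, ¬ G.Adj v u := by
    intro u hu
    by_cases huv : u = v
    · rw [huv]; exact G.loopless.irrefl v
    · intro hadj
      rcases pair u hu huv with h | h
      · exact nadj _ _ h.2.2 hadj.symm
      · exact nadj _ _ h.2.1 hadj.symm
  -- the two closed sets
  have fin2 : ∀ t : Fin n, t ∉ X → A a b = 0 →
      A t v = 1 → (∀ w, w ∉ X → w ≠ t → A w v = 0) → (∀ u ∈ X, u ≠ v → A t u = 0) → False := by
    intro t ht e1 _ e5 e6
    have hH : ∀ w, w ∉ X → ¬ G.Adj t w := by
      intro w hw hadj
      rcases hcov t ht with rfl | rfl <;> rcases hcov w hw with rfl | rfl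
      · exact G.loopless.irrefl _ hadj
      · exact nadj _ _ e1 hadj
      · exact nadj _ _ e1 hadj.symm
      · exact G.loopless.irrefl _ hadj
    have := closed_all hG {v, t} (by
      intro x hx w hadj
      simp only [Finset.mem_insert, Finset.mem_singleton] at hx ⊢
      rcases hx with rfl | rfl
      · by_contra hw
        rw [not_or] at hw
        by_cases hwX : w ∈ X
        · exact hvX w hwX hadj
        · exact nadj _ _ (e5 w hwX hw.2) hadj.symm
      · by_contra hw
        rw [not_or] at hw
        by_cases hwX : w ∈ X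
        · exact nadj _ _ (e6 w hwX hw.1) hadj
        · exact hH w hwX hadj) (Finset.mem_insert_self v _) u0
    simp only [Finset.mem_insert, Finset.mem_singleton] at this
    rcases this with h | h
    · exact hu0v h
    · exact ht (h ▸ hu0)
  rcases pair u0 hu0 hu0v with h | ⟨e1, -, h⟩
  · have := closed_all hG {v} (by
      intro x hx w hadj
      simp only [Finset.mem_singleton] at hx ⊢
      subst hx
      by_contra hw
      by_cases hwX : w ∈ X
      · exact hvX w hwX hadj
      · rcases hcov w hwX with rfl | rfl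
        · exact nadj _ _ h.1 hadj.symm
        · exact nadj _ _ h.2.1 hadj.symm) (Finset.mem_singleton_self v) u0
    exact hu0v (Finset.mem_singleton.1 this)
  · rcases h with h | h
    · refine fin2 a ha' e1 h.1 ?_ ?_
      · intro w hw hwa
        rcases hcov w hw with rfl | rfl
        · exact absurd rfl hwa
        · exact h.2.1
      · intro u hu huv
        rcases pair u hu huv with h' | ⟨-, -, h' | h'⟩
        · rw [h.1] at h'; exact absurd h'.1 one_ne_zero
        · exact h'.2.2
        · rw [h.1] at h'; exact absurd h'.1 one_ne_zero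
    · refine fin2 b hb' e1 h.2.1 ?_ ?_
      · intro w hw hwa
        rcases hcov w hw with rfl | rfl
        · exact h.1
        · exact absurd rfl hwa
      · intro u hu huv
        rcases pair u hu huv with h' | ⟨-, -, h' | h'⟩
        · rw [h.2.1] at h'; exact absurd h'.2.1 one_ne_zero
        · rw [h.2.1] at h'; exact absurd h'.2.1 one_ne_zero
        · exact h'.2.2

theorem core1 {n : ℕ} {G : SimpleGraph (Fin n)} {lam : ℝ}
    {X : Finset (Fin n)} (hX : IsStarSet G lam X) (h2 : 2 ≤ X.card) (h3 : (Xᶜ).card = 1)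
    {v : Fin n} (hv : v ∈ X) {y : Fin n → ℝ}
    (hy : y ∈ eigSpace G lam) (hy1 : y v = 1) (hy2 : ∀ u ∈ X, u ≠ v → y u = 0) :
    ∑ w, y w = 0 := by
  classical
  obtain ⟨a, hc⟩ := Finset.card_eq_one.1 h3
  have ha' : a ∉ X := by
    have : a ∈ Xᶜ := by rw [hc]; simp
    simpa using this
  have hcov : ∀ w, w ∉ X → w = a := by
    intro w hw
    have : w ∈ Xᶜ := by simpa using hw
    rw [hc] at this
    simpa using this
  have zer : ∀ x : Fin n → ℝ, (∀ v ∈ X, x v = 0) →
      (∀ v, v ∉ X → ∑ w, (if G.Adj v w then x w else 0) = lam * x v) → x = 0 :=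
    fun x h0 h => eq_zero_of hX.2 h0 h
  set A : Fin n → Fin n → ℝ := fun u w => if G.Adj u w then (1 : ℝ) else 0 with hA
  have hAs : ∀ u w, A u w = A w u := fun u w => Asymm G u w
  have hAv : ∀ u w, A u w = 0 ∨ A u w = 1 := fun u w => Aval G u w
  have hAz : ∀ u, A u u = 0 := fun u => by simp [hA]
  -- sums
  have supp : ∀ (v : Fin n), v ∈ X → ∀ (f : Fin n → ℝ), (∀ u ∈ X, u ≠ v → f u = 0) →
      ∑ w, f w = f a + f v := by
    intro v hv f hf
    have hva : v ≠ a := fun h => ha' (h ▸ hv)
    have h4 : ∑ w ∈ ({a, v} : Finset (Fin n)), f w = ∑ w, f w := by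
      apply Finset.sum_subset (Finset.subset_univ _)
      intro w _ hw
      simp only [Finset.mem_insert, Finset.mem_singleton, not_or] at hw
      apply hf
      · by_contra hwX
        exact hw.1 (hcov w hwX)
      · exact hw.2
    rw [← h4, Finset.sum_insert, Finset.sum_singleton]
    simp only [Finset.mem_singleton]
    exact fun h => hva h.symm
  have eqn : ∀ (v : Fin n), v ∈ X → ∀ (y : Fin n → ℝ), y ∈ eigSpace G lam → y v = 1 →
      (∀ u ∈ X, u ≠ v → y u = 0) → ∀ w, A w a * y a + A w v = lam * y w := by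
    intro v hv y hy hy1 hy2 w
    have e := (mem_eig G lam y).1 hy w
    rw [← e, supp v hv]
    · simp only [hA, hy1]
      simp only [ite_mul, one_mul, zero_mul]
    · intro u hu huv
      simp [hy2 u hu huv]
  -- nonsingularity
  have hD : lam ≠ 0 := by
    intro h0
    set z : Fin n → ℝ := fun w => if w = a then 1 else 0 with hz
    have hza : z a = 1 := by simp [hz]
    have hzX : ∀ u ∈ X, z u = 0 := by
      intro u hu
      have e1 : u ≠ a := fun h => ha' (h ▸ hu)
      simp [hz, e1]
    have hz0 : z = 0 := by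
      apply zer z hzX
      intro w hw
      rw [supp v hv _ (fun u hu _ => by simp [hzX u hu]), hcov w hw, h0]
      simp [hzX v hv]
    rw [hz0] at hza
    exact zero_ne_one hza
  have hsum : ∑ w, y w = y a + y v := supp v hv y hy2
  have hyv := eqn v hv y hy hy1 hy2
  obtain ⟨u, hu, huv⟩ := Finset.exists_mem_ne (by omega : 1 < X.card) v
  obtain ⟨y', hy', hy1', hy2'⟩ := star_basis hX u hu
  have hyu := eqn u hu y' hy' hy1' hy2'
  have := MM3.pair1 lam (y a) (y' a) (A a v) (A a u) (A u v) (hAv _ _) (hAv _ _) (hAv _ _)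
    hD
    (by have := hyv a; rw [hAz] at this; linarith)
    (by have := hyv v; rw [hAz, hAs v a, hy1] at this; linarith)
    (by have := hyv u; rw [hAs u a, hy2 u hu huv] at this; linarith)
    (by have := hyu a; rw [hAz] at this; linarith)
    (by have := hyu u; rw [hAz, hAs u a, hy1'] at this; linarith)
    (by
      have := hyu v
      rw [hAs v a, hAs v u, hy2' v hv (Ne.symm huv)] at this
      linarith)
  rw [hsum, hy1]
  linarith

theorem core0 {n : ℕ} {G : SimpleGraph (Fin n)} (hG : G.Connected) {lam : ℝ}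
    {X : Finset (Fin n)} (h2 : 2 ≤ X.card) (h3 : (Xᶜ).card = 0)
    {v : Fin n} (hv : v ∈ X) {y : Fin n → ℝ}
    (hy : y ∈ eigSpace G lam) (hy1 : y v = 1) (hy2 : ∀ u ∈ X, u ≠ v → y u = 0) :
    ∑ w, y w = 0 := by
  classical
  exfalso
  have hall : ∀ w, w ∈ X := by
    intro w
    by_contra hw
    have : w ∈ Xᶜ := by simpa using hw
    rw [Finset.card_eq_zero.1 h3] at this
    exact absurd this (Finset.notMem_empty w)
  have e := (mem_eig G lam y).1 hy
  have e2 : ∀ w, (if G.Adj w v then (1 : ℝ) else 0) = lam * y w := by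
    intro w
    rw [← e w, Finset.sum_eq_single v]
    · rw [hy1]
    · intro t _ ht
      rw [hy2 t (hall t) ht]; simp
    · intro h; exact absurd (Finset.mem_univ v) h
  have e3 : ∀ w, w ≠ v → ¬ G.Adj w v := by
    intro w hw hadj
    have := e2 w
    rw [if_pos hadj, hy2 w (hall w) hw, mul_zero] at this
    exact one_ne_zero this
  obtain ⟨u, hu, huv⟩ := Finset.exists_mem_ne (by omega : 1 < X.card) v
  have := closed_all hG {v} (by
      intro x hx w hadj
      simp only [Finset.mem_singleton] at hx ⊢
      subst hx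
      by_contra hw
      exact e3 w hw hadj.symm) (Finset.mem_singleton_self v) u
  exact huv (Finset.mem_singleton.1 this)

/-- Upper bound. -/
theorem upper {n : ℕ} {G : SimpleGraph (Fin n)} (hG : G.Connected) {lam : ℝ}
    (hm : IsMain G lam) {X : Finset (Fin n)} (hX : IsStarSet G lam X) :
    (mainVerts G lam X).card ≤ max 1 (n - 4) := by
  classical
  have h0 : (mainVerts G lam X).card ≤ X.card := by
    unfold mainVerts
    exact Finset.card_filter_le _ _
  by_cases h1 : X.card ≤ 1
  · exact le_max_of_le_left (h0.trans h1)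
  by_cases h3 : 4 ≤ (Xᶜ).card
  · rw [Finset.card_compl, Fintype.card_fin] at h3
    exact le_max_of_le_right (by omega)
  exfalso
  have h1' : 2 ≤ X.card := by omega
  choose! y hy hy1 hy2 using fun v (hv : v ∈ X) => star_basis hX v hv
  have hs : ∀ v ∈ X, ∑ w, y v w = 0 := by
    intro v hv
    have : (Xᶜ).card = 0 ∨ (Xᶜ).card = 1 ∨ (Xᶜ).card = 2 ∨ (Xᶜ).card = 3 := by omega
    rcases this with h | h | h | h
    · exact core0 hG h1' h hv (hy v hv) (hy1 v hv) (hy2 v hv)
    · exact core1 hX h1' h hv (hy v hv) (hy1 v hv) (hy2 v hv)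
    · exact core2 hG hX h1' h hv (hy v hv) (hy1 v hv) (hy2 v hv)
    · exact core3 hG hX h1' h hv (hy v hv) (hy1 v hv) (hy2 v hv)
  obtain ⟨x, hx, hxs⟩ := hm
  apply hxs
  have hx' := (mem_eig G lam x).1 hx
  have hd : (fun w => x w - ∑ v ∈ X, x v * y v w) = 0 := by
    apply eq_zero_of hX.2
    · intro u hu
      show x u - ∑ v ∈ X, x v * y v u = 0
      rw [Finset.sum_eq_single u]
      · rw [hy1 u hu]; ring
      · intro t ht htu
        rw [hy2 t ht u hu (Ne.symm htu), mul_zero]
      · intro h; exact absurd hu h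
    · intro w _
      have e : ∀ t, (if G.Adj w t then x t - ∑ v ∈ X, x v * y v t else 0)
          = (if G.Adj w t then x t else 0) - ∑ v ∈ X, x v * (if G.Adj w t then y v t else 0) := by
        intro t
        split_ifs
        · rfl
        · simp
      simp only [e]
      rw [Finset.sum_sub_distrib, hx' w, Finset.sum_comm]
      have : ∀ v ∈ X, ∑ t, x v * (if G.Adj w t then y v t else 0) = x v * (lam * y v w) := by
        intro v hv
        rw [← Finset.mul_sum, (mem_eig G lam (y v)).1 (hy v hv) w]
      rw [Finset.sum_congr rfl this, mul_sub, Finset.mul_sum]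
      congr 1
      refine Finset.sum_congr rfl fun v _ => by ring
  have hxe : ∀ w, x w = ∑ v ∈ X, x v * y v w := by
    intro w
    have := congrFun hd w
    simp only [Pi.zero_apply] at this
    linarith
  rw [Finset.sum_congr rfl (fun w _ => hxe w), Finset.sum_comm]
  refine Finset.sum_eq_zero fun v hv => ?_
  rw [← Finset.mul_sum, hs v hv, mul_zero]

theorem mk_example {n : ℕ} {G : SimpleGraph (Fin n)} [DecidableRel G.Adj] (hG : G.Connected)
    {lam : ℝ} {X : Finset (Fin n)} (hXne : X.Nonempty)
    (h2 : ∀ x : Fin n → ℝ, (∀ v ∈ X, x v = 0) →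
      (∀ v, v ∉ X → ∑ w, (if G.Adj v w then x w else 0) = lam * x v) → x = 0)
    (hcard : max 1 (n - 4) = X.card)
    (y : Fin n → Fin n → ℝ) (hy : ∀ v ∈ X, y v ∈ eigSpace G lam)
    (hy1 : ∀ v ∈ X, y v v = 1) (hy2 : ∀ v ∈ X, ∀ u ∈ X, u ≠ v → y v u = 0)
    (hys : ∀ v ∈ X, ∑ w, y v w ≠ 0) : max 1 (n - 4) ∈ values n := by
  classical
  have hbot : eigSpace (G.induce {w | w ∉ X}) lam = ⊥ := by
    rw [Submodule.eq_bot_iff]
    intro x hx
    set z : Fin n → ℝ := fun w => if h : w ∈ {w | w ∉ X} then x ⟨w, h⟩ else 0 with hzdef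
    have hz0 : ∀ w, w ∉ {w | w ∉ X} → z w = 0 := by
      intro w hw
      simp only [hzdef, hw, dif_neg, not_false_iff]
    have hzx : (fun w : ({w | w ∉ X} : Set (Fin n)) => z w) = x := by
      funext w
      have := w.2
      simp only [hzdef, this, dif_pos]
    have hze := (mem_eig_induce G lam {w | w ∉ X} z hz0).1 (by rw [hzx]; exact hx)
    have : z = 0 := h2 z (fun v hv => hz0 v (by simpa using hv)) (fun v hv => hze v hv)
    rw [← hzx, this]
    rfl
  have hstar : IsStarSet G lam X := by
    refine ⟨?_, hbot⟩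
    let r : eigSpace G lam →ₗ[ℝ] (X → ℝ) :=
      (LinearMap.funLeft ℝ ℝ (fun u : X => (u : Fin n))).comp (eigSpace G lam).subtype
    have hr : Function.Injective r := by
      rw [← LinearMap.ker_eq_bot, LinearMap.ker_eq_bot']
      intro x hx
      have h3 : (x : Fin n → ℝ) = 0 := by
        apply h2
        · intro u hu
          exact congrFun hx ⟨u, hu⟩
        · intro u _
          exact (mem_eig G lam x).1 x.2 u
      exact Subtype.ext h3
    have hs : Function.Surjective r := by
      intro f
      refine ⟨⟨∑ v : X, f v • y v, ?_⟩, ?_⟩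
      · exact Submodule.sum_mem _ fun v _ => Submodule.smul_mem _ _ (hy v v.2)
      · funext u
        show (∑ v : X, f v • y v) (u : Fin n) = f u
        rw [Finset.sum_apply, Finset.sum_eq_single u]
        · simp [hy1 u u.2]
        · intro t _ ht
          simp only [Pi.smul_apply, smul_eq_mul]
          rw [hy2 t t.2 u u.2 (fun h => ht (Subtype.ext h.symm)), mul_zero]
        · intro h; exact absurd (Finset.mem_univ u) h
    rw [(LinearEquiv.ofBijective r ⟨hr, hs⟩).finrank_eq]
    simp
  have hmain : mainVerts G lam X = X := by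
    apply Finset.Subset.antisymm
    · unfold mainVerts
      exact Finset.filter_subset _ _
    · intro v hv
      exact (mem_mainVerts h2 hv (hy v hv) (hy1 v hv) (hy2 v hv)).2 (hys v hv)
  obtain ⟨v0, hv0⟩ := hXne
  have hM : IsMain G lam := ⟨y v0, hy v0 hv0, hys v0 hv0⟩
  refine ⟨G, lam, hG, hM, ?_⟩
  symm
  unfold alephMax
  apply IsGreatest.csSup_eq
  refine ⟨⟨X, hstar, by rw [hmain, hcard]⟩, ?_⟩
  rintro m ⟨Y, hY, rfl⟩
  exact upper hG hM hY

theorem small (n : ℕ) (hn : 1 ≤ n) (hn5 : n ≤ 5) : max 1 (n - 4) ∈ values n := by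
  classical
  have hmax : max 1 (n - 4) = 1 := by omega
  haveI : NeZero n := ⟨by omega⟩
  haveI : Nonempty (Fin n) := ⟨0⟩
  refine mk_example (G := (⊤ : SimpleGraph (Fin n))) (lam := (n : ℝ) - 1) (X := {0})
    SimpleGraph.connected_top (Finset.singleton_nonempty _) ?_ ?_ (fun _ _ => 1) ?_ ?_ ?_ ?_
  · intro x h0 h
    have hx0 := h0 0 (Finset.mem_singleton_self _)
    have hsum : ∀ v, ∑ w, (if (⊤ : SimpleGraph (Fin n)).Adj v w then x w else 0) =
        (∑ w, x w) - x v := by
      intro v
      have : ∀ w, (if (⊤ : SimpleGraph (Fin n)).Adj v w then x w else 0) =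
          x w - (if w = v then x w else 0) := by
        intro w
        by_cases hw : w = v
        · subst hw; simp
        · simp [hw, Ne.symm hw]
      rw [Finset.sum_congr rfl (fun w _ => this w), Finset.sum_sub_distrib]
      simp
    have hn0 : (n : ℝ) ≠ 0 := by exact_mod_cast (by omega : n ≠ 0)
    have hv : ∀ v, v ≠ 0 → x v = (∑ w, x w) / n := by
      intro v hv
      have := h v (by simpa using hv)
      rw [hsum] at this
      field_simp
      linarith
    have hS : ∑ w, x w = 0 := by
      have h1 : ∑ w, x w = ∑ w : Fin n, ((∑ w, x w) / n - if w = 0 then (∑ w, x w) / n else 0) := by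
        refine Finset.sum_congr rfl fun w _ => ?_
        by_cases hw : w = 0
        · subst hw; simp [hx0]
        · simp [hw, hv w hw]
      rw [Finset.sum_sub_distrib] at h1
      simp only [Finset.sum_const, Finset.card_univ, Fintype.card_fin, nsmul_eq_mul,
        Finset.sum_ite_eq', Finset.mem_univ, if_true] at h1
      have h2 : (n : ℝ) * ((∑ w, x w) / n) = ∑ w, x w := by field_simp
      rw [h2] at h1
      have h3 : (∑ w, x w) / n = 0 := by linarith
      rcases div_eq_zero_iff.1 h3 with h4 | h4
      · exact h4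
      · exact absurd h4 hn0
    funext v
    by_cases hv0 : v = 0
    · rw [hv0, hx0]; rfl
    · rw [hv v hv0, hS, zero_div]; rfl
  · rw [hmax, Finset.card_singleton]
  · intro v _
    rw [mem_eig]
    intro v
    have : ∀ w, (if (⊤ : SimpleGraph (Fin n)).Adj v w then (1 : ℝ) else 0) =
        1 - (if w = v then 1 else 0) := by
      intro w
      by_cases hw : w = v
      · subst hw; simp
      · simp [hw, Ne.symm hw]
    rw [Finset.sum_congr rfl (fun w _ => this w), Finset.sum_sub_distrib]
    simp
  · intro v _; rfl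
  · intro v hv u hu huv
    rw [Finset.mem_singleton] at hv hu
    exact absurd (hu.trans hv.symm) huv
  · intro v _
    simp only [Finset.sum_const, Finset.card_univ, Fintype.card_fin, nsmul_eq_mul, mul_one]
    exact_mod_cast (by omega : n ≠ 0)

/-- The relation describing a path `0 - 1 - 2 - 3` together with pendant vertices at `0`. -/
def exRel (i j : ℕ) : Prop :=
  (i = 0 ∧ j = 1) ∨ (i = 1 ∧ j = 2) ∨ (i = 2 ∧ j = 3) ∨ (i = 0 ∧ 4 ≤ j)

instance : DecidableRel exRel := fun i j => by unfold exRel; infer_instance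

/-- The example graph. -/
def exG (n : ℕ) : SimpleGraph (Fin n) where
  Adj i j := exRel i j ∨ exRel j i
  symm := ⟨fun _ _ h => h.symm⟩
  loopless := ⟨fun i h => by unfold exRel at h; omega⟩

instance (n : ℕ) : DecidableRel (exG n).Adj := fun i j => by
  unfold exG; infer_instance

theorem large (n : ℕ) (hn : 5 ≤ n) : max 1 (n - 4) ∈ values n := by
  classical
  have hmax : max 1 (n - 4) = n - 4 := by omega
  let v0 : Fin n := ⟨0, by omega⟩
  let v1 : Fin n := ⟨1, by omega⟩
  let v2 : Fin n := ⟨2, by omega⟩
  let v3 : Fin n := ⟨3, by omega⟩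
  let v4 : Fin n := ⟨4, by omega⟩
  have hcon : (exG n).Connected := by
    haveI : Nonempty (Fin n) := ⟨v0⟩
    have a01 : (exG n).Adj v0 v1 := Or.inl (Or.inl ⟨rfl, rfl⟩)
    have a12 : (exG n).Adj v1 v2 := Or.inl (Or.inr (Or.inl ⟨rfl, rfl⟩))
    have a23 : (exG n).Adj v2 v3 := Or.inl (Or.inr (Or.inr (Or.inl ⟨rfl, rfl⟩)))
    have h0 : ∀ v : Fin n, (exG n).Reachable v0 v := by
      intro v
      by_cases h4 : 4 ≤ v.val
      · exact SimpleGraph.Adj.reachable (Or.inl (Or.inr (Or.inr (Or.inr ⟨rfl, h4⟩))))
      · have : v.val = 0 ∨ v.val = 1 ∨ v.val = 2 ∨ v.val = 3 := by omega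
        rcases this with h | h | h | h
        · have : v = v0 := Fin.ext h
          rw [this]
        · have : v = v1 := Fin.ext h
          rw [this]; exact a01.reachable
        · have : v = v2 := Fin.ext h
          rw [this]; exact a01.reachable.trans a12.reachable
        · have : v = v3 := Fin.ext h
          rw [this]; exact (a01.reachable.trans a12.reachable).trans a23.reachable
    exact SimpleGraph.Connected.mk (fun u v => (h0 u).symm.trans (h0 v))
  have key : ∀ f : Fin n → ℝ, ∑ t, f t =
      f v0 + f v1 + f v2 + f v3 + ∑ t ∈ Finset.univ.filter (fun t : Fin n => 4 ≤ t.val), f t := by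
    intro f
    rw [← Finset.sum_filter_add_sum_filter_not Finset.univ (fun t : Fin n => 4 ≤ t.val), add_comm]
    congr 1
    have : Finset.univ.filter (fun t : Fin n => ¬ 4 ≤ t.val) = {v0, v1, v2, v3} := by
      ext t
      simp only [Finset.mem_filter, Finset.mem_univ, true_and, Finset.mem_insert,
        Finset.mem_singleton, Fin.ext_iff, v0, v1, v2, v3]
      omega
    rw [this, Finset.sum_insert, Finset.sum_insert, Finset.sum_insert, Finset.sum_singleton]
    · ring
    · simp [v2, v3, Fin.ext_iff]
    · simp [v1, v2, v3, Fin.ext_iff]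
    · simp [v0, v1, v2, v3, Fin.ext_iff]
  have adj : ∀ (x : Fin n → ℝ) (w : Fin n),
      ∑ t, (if (exG n).Adj w t then x t else 0) =
        if w.val = 0 then x v1 + ∑ t ∈ Finset.univ.filter (fun t : Fin n => 4 ≤ t.val), x t
        else if w.val = 1 then x v0 + x v2
        else if w.val = 2 then x v1 + x v3
        else if w.val = 3 then x v2 else x v0 := by
    intro x w
    rw [key]
    have e0 : (exG n).Adj w v0 ↔ (w.val = 1 ∨ 4 ≤ w.val) := by
      show exRel w.val 0 ∨ exRel 0 w.val ↔ _
      unfold exRel; omega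
    have e1 : (exG n).Adj w v1 ↔ (w.val = 0 ∨ w.val = 2) := by
      show exRel w.val 1 ∨ exRel 1 w.val ↔ _
      unfold exRel; omega
    have e2 : (exG n).Adj w v2 ↔ (w.val = 1 ∨ w.val = 3) := by
      show exRel w.val 2 ∨ exRel 2 w.val ↔ _
      unfold exRel; omega
    have e3 : (exG n).Adj w v3 ↔ (w.val = 2) := by
      show exRel w.val 3 ∨ exRel 3 w.val ↔ _
      unfold exRel; omega
    have e4 : ∀ t ∈ Finset.univ.filter (fun t : Fin n => 4 ≤ t.val),
        (if (exG n).Adj w t then x t else 0) = if w.val = 0 then x t else 0 := by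
      intro t ht
      rw [Finset.mem_filter] at ht
      have : (exG n).Adj w t ↔ w.val = 0 := by
        show exRel w.val t.val ∨ exRel t.val w.val ↔ _
        unfold exRel; omega
      simp only [this]
    rw [Finset.sum_congr rfl e4]
    simp only [e0, e1, e2, e3]
    by_cases h0 : w.val = 0
    · simp [h0]
    · by_cases h1 : w.val = 1
      · simp [h1]
      · by_cases h2 : w.val = 2
        · simp [h2]
        · by_cases h3 : w.val = 3
          · simp [h3]
          · have h4 : 4 ≤ w.val := by omega
            simp [h0, h1, h2, h3, h4]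
  refine mk_example (G := exG n) (lam := 0)
    (X := Finset.univ.filter (fun t : Fin n => 4 ≤ t.val)) hcon
    ⟨v4, by simp [v4]⟩ ?_ ?_
    (fun v w => if w = v then 1 else if w = v1 then -1 else if w = v3 then 1 else 0)
    ?_ ?_ ?_ ?_
  · intro x h0 h
    have hz : ∑ t ∈ Finset.univ.filter (fun t : Fin n => 4 ≤ t.val), x t = 0 :=
      Finset.sum_eq_zero h0
    have q0 := h v0 (by simp [v0])
    have q1 := h v1 (by simp [v1])
    have q2 := h v2 (by simp [v2])
    have q3 := h v3 (by simp [v3])
    rw [adj] at q0 q1 q2 q3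
    simp only [v0, v1, v2, v3, if_true, if_false, zero_mul] at q0 q1 q2 q3
    norm_num at q0 q1 q2 q3
    simp only [hz, add_zero] at q0
    funext w
    by_cases h4 : 4 ≤ w.val
    · exact h0 w (by simp [h4])
    · have : w.val = 0 ∨ w.val = 1 ∨ w.val = 2 ∨ w.val = 3 := by omega
      show x w = 0
      rcases this with h | h | h | h
      · have : w = ⟨0, by omega⟩ := Fin.ext h
        rw [this]; linarith
      · have : w = ⟨1, by omega⟩ := Fin.ext h
        rw [this]; linarith
      · have : w = ⟨2, by omega⟩ := Fin.ext h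
        rw [this]; linarith
      · have : w = ⟨3, by omega⟩ := Fin.ext h
        rw [this]; linarith
  · rw [hmax]
    have h1 : (Finset.univ.filter (fun t : Fin n => ¬ 4 ≤ t.val)).card = 4 := by
      have : Finset.univ.filter (fun t : Fin n => ¬ 4 ≤ t.val) = {v0, v1, v2, v3} := by
        ext t
        simp only [Finset.mem_filter, Finset.mem_univ, true_and, Finset.mem_insert,
          Finset.mem_singleton, Fin.ext_iff, v0, v1, v2, v3]
        omega
      rw [this]
      simp [v0, v1, v2, v3, Fin.ext_iff]
    have h2 := Finset.card_filter_add_card_filter_not (s := (Finset.univ : Finset (Fin n)))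
      (fun t : Fin n => 4 ≤ t.val)
    rw [h1, Finset.card_univ, Fintype.card_fin] at h2
    omega
  · intro v hv
    rw [Finset.mem_filter] at hv
    have hv4 := hv.2
    rw [mem_eig]
    intro w
    rw [adj]
    have n0 : v0 ≠ v := fun h => by rw [← h] at hv4; simp [v0] at hv4
    have n1 : v1 ≠ v := fun h => by rw [← h] at hv4; simp [v1] at hv4
    have n2 : v2 ≠ v := fun h => by rw [← h] at hv4; simp [v2] at hv4
    have n3 : v3 ≠ v := fun h => by rw [← h] at hv4; simp [v3] at hv4
    have n01 : v0 ≠ v1 := by simp [v0, v1]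
    have n03 : v0 ≠ v3 := by simp [v0, v3]
    have n21 : v2 ≠ v1 := by simp [v2, v1]
    have n23 : v2 ≠ v3 := by simp [v2, v3]
    have n31 : v3 ≠ v1 := by simp [v3, v1]
    have hs : ∑ t ∈ Finset.univ.filter (fun t : Fin n => 4 ≤ t.val),
        (if t = v then (1 : ℝ) else if t = v1 then -1 else if t = v3 then 1 else 0) = 1 := by
      rw [Finset.sum_eq_single v]
      · simp
      · intro t ht htv
        rw [Finset.mem_filter] at ht
        have m1 : t ≠ v1 := fun h => by rw [h] at ht; simp [v1] at ht
        have m3 : t ≠ v3 := fun h => by rw [h] at ht; simp [v3] at ht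
        simp [htv, m1, m3]
      · intro h; exact absurd (Finset.mem_filter.2 hv) h
    rw [hs]
    simp only [n0, n1, n2, n3, n01, n03, n21, n23, n31, if_false, if_true, zero_mul]
    split_ifs <;> norm_num
  · intro v _; simp
  · intro v hv u hu huv
    rw [Finset.mem_filter] at hu
    have m1 : u ≠ v1 := fun h => by rw [h] at hu; simp [v1] at hu
    have m3 : u ≠ v3 := fun h => by rw [h] at hu; simp [v3] at hu
    simp [huv, m1, m3]
  · intro v hv
    rw [Finset.mem_filter] at hv
    have hv4 := hv.2
    have n1 : v1 ≠ v := fun h => by rw [← h] at hv4; simp [v1] at hv4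
    have n3 : v3 ≠ v := fun h => by rw [← h] at hv4; simp [v3] at hv4
    have n31 : v3 ≠ v1 := by simp [v3, v1]
    have : ∀ w, (if w = v then (1 : ℝ) else if w = v1 then -1 else if w = v3 then 1 else 0) =
        (if w = v then 1 else 0) + (if w = v1 then -1 else 0) + (if w = v3 then 1 else 0) := by
      intro w
      by_cases h1 : w = v
      · subst h1; simp [n1.symm, n3.symm]
      · by_cases h2 : w = v1
        · subst h2; simp [n1, n31.symm]
        · simp [h1, h2]
    simp only [this, Finset.sum_add_distrib, Finset.sum_ite_eq', Finset.mem_univ, if_true]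
    norm_num

/-- The maximum of `alephMax` over connected graphs of order `n` and their main eigenvalues
is `max 1 (n - 4)`. -/
theorem result (n : ℕ) (hn : 1 ≤ n) : IsGreatest (values n) (max 1 (n - 4)) := by
  refine ⟨?_, ?_⟩
  · by_cases h : 5 ≤ n
    · exact large n h
    · exact small n hn (by omega)
  · rintro m ⟨G, lam, hG, hM, rfl⟩
    unfold alephMax
    by_cases hne : {m | ∃ X : Finset (Fin n), IsStarSet G lam X ∧
        m = (mainVerts G lam X).card}.Nonempty
    · apply csSup_le hne
      rintro m ⟨X, hX, rfl⟩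
      exact upper hG hM hX
    · rw [Set.not_nonempty_iff_eq_empty.1 hne]
      simp

end Pool.Agent.Results.MP_bb681f_co.MaxMain
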